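import Pool.Agent.W845.PM.Base

set_option autoImplicit false
open scoped Classical
open Filter Topology MeasureTheory ProbabilityTheory
open scoped ENNReal NNReal BigOperators

namespace Pool.Agent.W845.PM

noncomputable section

namespace Step1Aux

theorem Psi_sum {n : ℕ} (p : ℝ) (N : ℕ) (a : ℕ → ℝ) (h : ℕ → ℝ≥0∞ → ℝ) (u : Fin n → ℝ≥0∞) :
    Psi n p (fun s => ∑ j ∈ Finset.range N, a j * h j s) u =
      ∑ j ∈ Finset.range N, a j * Psi n p (h j) u := by
  unfold Psi
  simp only [Finset.mul_sum]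
  rw [Finset.sum_comm]
  refine Finset.sum_congr rfl fun j _ => Finset.sum_congr rfl fun M _ => by ring

theorem Psi_close (hone : S_ONE) {n : ℕ} {p : ℝ} (h0 : 0 ≤ p) (h1 : p ≤ 1) {h h' : ℝ≥0∞ → ℝ}
    {ε : ℝ} (hh : ∀ s, |h s - h' s| ≤ ε) (u : Fin n → ℝ≥0∞) :
    |Psi n p h u - Psi n p h' u| ≤ ε := by
  unfold Psi
  rw [← Finset.sum_sub_distrib]
  calc |∑ N : Finset (Fin n), (ws n p N * h (∑ w ∈ N, u w) - ws n p N * h' (∑ w ∈ N, u w))|
      ≤ ∑ N : Finset (Fin n), |ws n p N * h (∑ w ∈ N, u w) - ws n p N * h' (∑ w ∈ N, u w)| :=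
        Finset.abs_sum_le_sum_abs _ _
    _ ≤ ∑ N : Finset (Fin n), ws n p N * ε := by
        refine Finset.sum_le_sum fun N _ => ?_
        rw [← mul_sub, abs_mul, abs_of_nonneg (ws_nonneg h0 h1 N)]
        exact mul_le_mul_of_nonneg_left (hh _) (ws_nonneg h0 h1 N)
    _ = ε := by rw [← Finset.sum_mul, (hone n p).2, one_mul]

theorem bdd_cont (h : ℝ≥0∞ → ℝ) (hh : Continuous h) : ∃ B, ∀ u, |h u| ≤ B := by
  obtain ⟨B, hB⟩ := (isCompact_range hh).isBounded.exists_norm_le
  exact ⟨B, fun u => hB (h u) ⟨u, rfl⟩⟩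

theorem integ (c : ℝ≥0) (S : Om → ℝ≥0∞) (hS : Measurable S) (h : ℝ≥0∞ → ℝ) (hh : Continuous h) :
    Integrable (fun ω => h (S ω)) (Pm c) := by
  obtain ⟨B, hB⟩ := bdd_cont h hh
  refine Integrable.of_bound (hh.measurable.comp hS).aestronglyMeasurable B ?_
  exact Filter.Eventually.of_forall fun ω => hB _

end Step1Aux

open Step1Aux in
theorem step1 : S_ONE → S_PROD → S_EX → S_WEI → S_POI → S_TM → S_GEN → S_STEP1 := by
  intro hone hprod hex hwei hpoi htm hgen c g u0 k hg hconv h hh p hp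
  obtain ⟨hexc, -, hex01, -, -, hexs⟩ := hex
  have hTm : Measurable (T g u0 k) := htm.2 g u0 (fun j => (hg j).measurable) k
  set S : Om → ℝ≥0∞ := fun ω => ∑ i ∈ Finset.range (ω []), T g u0 k (sh i ω) with hS
  have hSm : Measurable S := htm.1 _ hTm
  -- powers
  have hpow : ∀ j : ℕ, Tendsto (fun n : ℕ => EG n (p n) (fun K =>
      |Psi n (p n) (fun s => ex s ^ j) (fun w => U g u0 k K w) - ∫ ω, ex (S ω) ^ j ∂(Pm c)|))
      atTop (𝓝 0) := by
    intro j
    set α : ℝ := ∫ ω, ex (T g u0 k ω) ^ j ∂(Pm c) with hα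
    have hcj : Continuous fun s => ex s ^ j := hexc.pow j
    have hlim : Tendsto (fun n : ℕ => (n : ℝ) * p n ^ 2 + |(n : ℝ) * p n - c| +
        c * EG n (p n) (fun G => |(∑ v, ex (U g u0 k G v) ^ j) / n - α|)) atTop (𝓝 0) := by
      have h1 := hp.mul_sq
      have h2 : Tendsto (fun n : ℕ => |(n : ℝ) * p n - c|) atTop (𝓝 0) := by
        have := (hp.2.sub_const (c : ℝ)).abs
        simpa using this
      have h3 := (hconv (fun s => ex s ^ j) hcj p hp).const_mul (c : ℝ)
      have h4 := (h1.add h2).add h3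
      simpa using h4
    have hα0 : 0 ≤ α := integral_nonneg fun ω => pow_nonneg (hex01 _).1 _
    have hα1 : α ≤ 1 := by
      have : ∫ ω, ex (T g u0 k ω) ^ j ∂(Pm c) ≤ ∫ ω, (1 : ℝ) ∂(Pm c) := by
        refine integral_mono (integ c _ hTm _ hcj) (integrable_const _) fun ω => ?_
        exact pow_le_one₀ (hex01 _).1 (hex01 _).2
      simpa using this
    have hI : ∫ ω, ex (S ω) ^ j ∂(Pm c) = Real.exp (-((c : ℝ) * (1 - α))) := by
      have h1 := hgen c (fun ω => ex (T g u0 k ω) ^ j)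
        ((hcj.measurable).comp hTm) (fun ω => ⟨pow_nonneg (hex01 _).1 _,
          pow_le_one₀ (hex01 _).1 (hex01 _).2⟩)
      rw [← hα] at h1
      rw [← h1]
      refine integral_congr_ae (Filter.Eventually.of_forall fun ω => ?_)
      simp only [hS, hexs]
      rw [Finset.prod_pow]
    refine squeeze_zero (fun n => EG_nonneg (hp.1 n).1 (hp.1 n).2 fun K => abs_nonneg _)
      (fun n => ?_) hlim
    have h1 : ∀ K : SimpleGraph (Fin n), |Psi n (p n) (fun s => ex s ^ j)
        (fun w => U g u0 k K w) - ∫ ω, ex (S ω) ^ j ∂(Pm c)| ≤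
        ((n : ℝ) * p n ^ 2 + |(n : ℝ) * p n - c|) +
          c * |(∑ v, ex (U g u0 k K v) ^ j) / n - α| := by
      intro K
      have h2 : Psi n (p n) (fun s => ex s ^ j) (fun w => U g u0 k K w) =
          ∏ w, (1 - p n + p n * (ex (U g u0 k K w) ^ j)) := by
        rw [← hprod]
        unfold Psi
        refine Finset.sum_congr rfl fun N _ => ?_
        simp only [hexs]
        rw [Finset.prod_pow]
      rw [h2, hI]
      exact hpoi n (p n) c α _ (hp.1 n).1 (hp.1 n).2 c.coe_nonneg hα0 hα1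
        (fun w => ⟨pow_nonneg (hex01 _).1 _, pow_le_one₀ (hex01 _).1 (hex01 _).2⟩)
    refine (EG_mono (hp.1 n).1 (hp.1 n).2 h1).trans (le_of_eq ?_)
    rw [EG_add, EG_const hone, EG_mul_left]
  -- polynomials
  have hpoly : ∀ P : Polynomial ℝ, Tendsto (fun n : ℕ => EG n (p n) (fun K =>
      |Psi n (p n) (fun s => P.eval (ex s)) (fun w => U g u0 k K w) -
        ∫ ω, P.eval (ex (S ω)) ∂(Pm c)|)) atTop (𝓝 0) := by
    intro P
    have hlim : Tendsto (fun n : ℕ => ∑ j ∈ Finset.range (P.natDegree + 1),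
        |P.coeff j| * EG n (p n) (fun K => |Psi n (p n) (fun s => ex s ^ j)
          (fun w => U g u0 k K w) - ∫ ω, ex (S ω) ^ j ∂(Pm c)|)) atTop (𝓝 0) := by
      have : Tendsto (fun n : ℕ => ∑ j ∈ Finset.range (P.natDegree + 1),
        |P.coeff j| * EG n (p n) (fun K => |Psi n (p n) (fun s => ex s ^ j)
          (fun w => U g u0 k K w) - ∫ ω, ex (S ω) ^ j ∂(Pm c)|)) atTop
          (𝓝 (∑ j ∈ Finset.range (P.natDegree + 1), |P.coeff j| * 0)) :=
        tendsto_finsetSum _ fun j _ => (hpow j).const_mul _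
      simpa using this
    refine squeeze_zero (fun n => EG_nonneg (hp.1 n).1 (hp.1 n).2 fun K => abs_nonneg _)
      (fun n => ?_) hlim
    have hI : ∫ ω, P.eval (ex (S ω)) ∂(Pm c) = ∑ j ∈ Finset.range (P.natDegree + 1),
        P.coeff j * ∫ ω, ex (S ω) ^ j ∂(Pm c) := by
      simp only [Polynomial.eval_eq_sum_range]
      rw [integral_finsetSum]
      · refine Finset.sum_congr rfl fun j _ => ?_
        rw [integral_const_mul]
      · intro j _
        exact (integ c S hSm (fun s => ex s ^ j) (hexc.pow j)).const_mul _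
    have h1 : ∀ K : SimpleGraph (Fin n), |Psi n (p n) (fun s => P.eval (ex s))
        (fun w => U g u0 k K w) - ∫ ω, P.eval (ex (S ω)) ∂(Pm c)| ≤
        ∑ j ∈ Finset.range (P.natDegree + 1), |P.coeff j| * |Psi n (p n) (fun s => ex s ^ j)
          (fun w => U g u0 k K w) - ∫ ω, ex (S ω) ^ j ∂(Pm c)| := by
      intro K
      have h2 : Psi n (p n) (fun s => P.eval (ex s)) (fun w => U g u0 k K w) =
          ∑ j ∈ Finset.range (P.natDegree + 1),
            P.coeff j * Psi n (p n) (fun s => ex s ^ j) (fun w => U g u0 k K w) := by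
        rw [← Psi_sum]
        congr 1
        funext s
        rw [Polynomial.eval_eq_sum_range]
      rw [h2, hI, ← Finset.sum_sub_distrib]
      refine (Finset.abs_sum_le_sum_abs _ _).trans (le_of_eq ?_)
      refine Finset.sum_congr rfl fun j _ => ?_
      rw [← mul_sub, abs_mul]
    refine (EG_mono (hp.1 n).1 (hp.1 n).2 h1).trans (le_of_eq ?_)
    rw [EG_sum]
    refine Finset.sum_congr rfl fun j _ => ?_
    rw [EG_mul_left]
  -- conclusion
  rw [Metric.tendsto_atTop]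
  intro ε hε
  obtain ⟨P, hP⟩ := hwei h hh (ε / 4) (by positivity)
  obtain ⟨N, hN⟩ := (Metric.tendsto_atTop.1 (hpoly P)) (ε / 4) (by positivity)
  refine ⟨N, fun n hn => ?_⟩
  have h0 := (hp.1 n).1
  have h1 := (hp.1 n).2
  have hN' := hN n hn
  rw [Real.dist_eq, sub_zero] at hN' ⊢
  have hPc : Continuous fun s => P.eval (ex s) := P.continuous.comp hexc
  have hI : |∫ ω, P.eval (ex (S ω)) ∂(Pm c) - ∫ ω, h (S ω) ∂(Pm c)| ≤ ε / 4 := by
    rw [← integral_sub (integ c S hSm _ hPc) (integ c S hSm _ hh)]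
    have hb : ∀ᵐ ω ∂(Pm c), ‖P.eval (ex (S ω)) - h (S ω)‖ ≤ ε / 4 := by
      refine Filter.Eventually.of_forall fun ω => ?_
      rw [Real.norm_eq_abs, abs_sub_comm]
      exact hP _
    have := norm_integral_le_of_norm_le_const hb
    simpa using this
  have hle : ∀ K : SimpleGraph (Fin n), |Psi n (p n) h (fun w => U g u0 k K w) -
      ∫ ω, h (S ω) ∂(Pm c)| ≤ |Psi n (p n) (fun s => P.eval (ex s)) (fun w => U g u0 k K w) -
        ∫ ω, P.eval (ex (S ω)) ∂(Pm c)| + ε / 2 := by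
    intro K
    have h2 := Psi_close hone h0 h1 hP (fun w => U g u0 k K w)
    have h3 := abs_add_three (Psi n (p n) h (fun w => U g u0 k K w) -
      Psi n (p n) (fun s => P.eval (ex s)) (fun w => U g u0 k K w))
      (Psi n (p n) (fun s => P.eval (ex s)) (fun w => U g u0 k K w) -
        ∫ ω, P.eval (ex (S ω)) ∂(Pm c))
      (∫ ω, P.eval (ex (S ω)) ∂(Pm c) - ∫ ω, h (S ω) ∂(Pm c))
    have h4 : Psi n (p n) h (fun w => U g u0 k K w) - ∫ ω, h (S ω) ∂(Pm c) =
      (Psi n (p n) h (fun w => U g u0 k K w) -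
      Psi n (p n) (fun s => P.eval (ex s)) (fun w => U g u0 k K w)) +
      (Psi n (p n) (fun s => P.eval (ex s)) (fun w => U g u0 k K w) -
        ∫ ω, P.eval (ex (S ω)) ∂(Pm c)) +
      (∫ ω, P.eval (ex (S ω)) ∂(Pm c) - ∫ ω, h (S ω) ∂(Pm c)) := by ring
    rw [h4]
    linarith
  have h5 := EG_mono h0 h1 hle
  rw [EG_add, EG_const hone] at h5
  have h6 : 0 ≤ EG n (p n) (fun K => |Psi n (p n) h (fun w => U g u0 k K w) -
      ∫ ω, h (S ω) ∂(Pm c)|) := EG_nonneg h0 h1 fun K => abs_nonneg _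
  have h7 := le_abs_self (EG n (p n) (fun K =>
      |Psi n (p n) (fun s => P.eval (ex s)) (fun w => U g u0 k K w) -
        ∫ ω, P.eval (ex (S ω)) ∂(Pm c)|))
  rw [abs_of_nonneg h6]
  linarith

end

end Pool.Agent.W845.PM
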